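import Pool.Agent.H21Z.Cone.Proj
import Pool.Agent.H800Z.Bow.Bow

set_option autoImplicit false

namespace Pool.Agent.H21Z.Cone

open Pool.Agent.H668Z.SC Pool.Agent.H535Z.HG GS

variable {G V : Type} [Group G] [MulAction G V]

/-- The edges of the cone-off. -/
def rel (X : GS V) (o : V) (E : Subgroup G) : V ⊕ (G ⧸ E) → V ⊕ (G ⧸ E) → Prop
  | Sum.inl u, Sum.inl v => X.d u v = 1
  | Sum.inl u, Sum.inr q => ∃ g : G, u = g • o ∧ q = (g : G ⧸ E)
  | Sum.inr q, Sum.inl u => ∃ g : G, u = g • o ∧ q = (g : G ⧸ E)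
  | Sum.inr _, Sum.inr _ => False

/-- A point of the base space near a point of the cone-off. -/
noncomputable def rep (o : V) (E : Subgroup G) : V ⊕ (G ⧸ E) → V
  | Sum.inl u => u
  | Sum.inr q => q.out • o

variable (X : GS V) (o : V) (E : Subgroup G)

theorem rel_symm (a b : V ⊕ (G ⧸ E)) (h : rel X o E a b) : rel X o E b a := by
  rcases a with a | a <;> rcases b with b | b
  · show X.d b a = 1
    rw [X.symm]; exact h
  · exact h
  · exact h
  · exact h

theorem reach_inl : ∀ n u v, X.d u v = n → Reach (rel X o E) n (Sum.inl u) (Sum.inl v) := by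
  intro n
  induction n with
  | zero => intro u v h; rw [X.eq_of_d _ _ h]; exact Reach.refl _ _
  | succ n ih =>
    intro u v h
    obtain ⟨z, h1, h2⟩ := X.step u v n h
    exact Reach.step _ _ (Sum.inl z) _ h1 (ih z v h2)

theorem reach_rep (x : V ⊕ (G ⧸ E)) : Reach (rel X o E) 1 x (Sum.inl (rep o E x)) := by
  rcases x with x | q
  · exact Reach.refl _ _
  · exact Reach.single ⟨q.out, rfl, (QuotientGroup.out_eq' q).symm⟩

theorem rel_conn (x y : V ⊕ (G ⧸ E)) : ∃ n, Reach (rel X o E) n x y :=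
  ⟨_, ((reach_rep X o E x).trans (reach_inl X o E _ _ _ rfl)).trans
    ((reach_rep X o E y).symm (rel_symm X o E))⟩

/-- The cone-off. -/
noncomputable def cone : GS (V ⊕ (G ⧸ E)) := ofRel (rel X o E) (rel_symm X o E) (rel_conn X o E)

variable {X o E}

theorem d_inl (u v : V) : (cone X o E).d (Sum.inl u) (Sum.inl v) ≤ X.d u v :=
  (ofRel_le_iff _ _ _ _ _).mpr (reach_inl X o E _ _ _ rfl)

theorem d_rep (x : V ⊕ (G ⧸ E)) : (cone X o E).d x (Sum.inl (rep o E x)) ≤ 1 :=
  (ofRel_le_iff _ _ _ _ _).mpr (reach_rep X o E x)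

theorem le_one {x y : V ⊕ (G ⧸ E)} : (cone X o E).d x y ≤ 1 ↔ x = y ∨ rel X o E x y :=
  ofRel_le_one _ _ _ _

theorem rel_of_one {x y : V ⊕ (G ⧸ E)} (h : (cone X o E).d x y = 1) : rel X o E x y := by
  rcases le_one.mp h.le with rfl | h1
  · rw [GS.d_self] at h; omega
  · exact h1

theorem rel_smul (hi : Iso X G) (g : G) {a b : V ⊕ (G ⧸ E)} (h : rel X o E a b) :
    rel X o E (g • a) (g • b) := by
  rcases a with a | a <;> rcases b with b | b
  · show X.d (g • a) (g • b) = 1
    rw [hi]; exact h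
  · obtain ⟨k, rfl, rfl⟩ := h
    exact ⟨g * k, (mul_smul _ _ _).symm, rfl⟩
  · obtain ⟨k, rfl, rfl⟩ := h
    exact ⟨g * k, (mul_smul _ _ _).symm, rfl⟩
  · exact h

theorem cone_iso (hi : Iso X G) : Iso (cone X o E) G := by
  have key : ∀ (g : G) (x y : V ⊕ (G ⧸ E)), (cone X o E).d (g • x) (g • y) ≤ (cone X o E).d x y := by
    intro g x y
    have h1 : Reach (rel X o E) ((cone X o E).d x y) x y := (ofRel_le_iff _ _ _ _ _).mp le_rfl
    refine (ofRel_le_iff _ _ _ _ _).mpr ?_
    generalize (cone X o E).d x y = n at h1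
    induction h1 with
    | refl n x => exact Reach.refl _ _
    | step n x z y h _ ih => exact Reach.step _ _ (g • z) _ (rel_smul hi g h) ih
  intro g x y
  refine le_antisymm (key g x y) ?_
  have := key g⁻¹ (g • x) (g • y)
  rwa [inv_smul_smul, inv_smul_smul] at this

theorem out_mem (g : G) : g⁻¹ * (g : G ⧸ E).out ∈ E :=
  QuotientGroup.eq.mp (QuotientGroup.out_eq' (g : G ⧸ E)).symm

theorem cone_hyp (hG : Geo G X o) (hq : QC X o E) : ∃ δ, (cone X o E).Slim δ := by
  obtain ⟨K, hK⟩ := hq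
  obtain ⟨δ, hδ⟩ := hG.hyp
  refine Pool.Agent.H800Z.Bow.thm_bow _ (cone X o E)
    (fun x y => {z | z = x ∨ z = y ∨ ∃ v, z = Sum.inl v ∧ X.Btw (rep o E x) v (rep o E y)})
    (δ + K + 2) ?_ ?_ ?_
  · rintro x y w z (rfl | rfl | ⟨v, rfl, hv⟩)
    · exact ⟨z, Or.inl (Or.inl rfl), by rw [GS.d_self]; omega⟩
    · exact ⟨z, Or.inr (Or.inr (Or.inl rfl)), by rw [GS.d_self]; omega⟩
    · obtain ⟨p, hp, h1⟩ := hδ _ _ (rep o E w) _ hv
      have := d_inl (X := X) (o := o) (E := E) v p
      refine ⟨Sum.inl p, ?_, by omega⟩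
      rcases hp with hp | hp
      · exact Or.inl (Or.inr (Or.inr ⟨p, rfl, hp⟩))
      · exact Or.inr (Or.inr (Or.inr ⟨p, rfl, hp⟩))
  · rintro x y hxy z (rfl | rfl | ⟨v, rfl, hv⟩)
    · rw [GS.d_self]; omega
    · rw [GS.symm]; omega
    have key : ∀ g : G, (X.Btw (g • o) v ((g : G ⧸ E).out • o) ∨
        X.Btw ((g : G ⧸ E).out • o) v (g • o)) →
        (cone X o E).d (Sum.inl v) (Sum.inr (g : G ⧸ E)) ≤ K + 1 := by
      intro g h
      have h' : X.Btw (g • o) v ((g : G ⧸ E).out • o) := h.elim id fun h => h.symm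
      obtain ⟨k, h1, h2⟩ := qc_coset hG.iso hK (out_mem g) h'
      have h3 := d_inl (X := X) (o := o) (E := E) v (k • o)
      have h4 : (cone X o E).d (Sum.inl (k • o)) (Sum.inr (g : G ⧸ E)) ≤ 1 :=
        le_one.mpr (Or.inr ⟨k, rfl, QuotientGroup.eq.mpr h1⟩)
      have := (cone X o E).tri (Sum.inl v) (Sum.inl (k • o)) (Sum.inr (g : G ⧸ E))
      omega
    rcases le_one.mp hxy with rfl | h
    · unfold GS.Btw at hv
      rw [X.d_self] at hv
      rw [← X.eq_of_d (rep o E x) v (by omega), GS.symm]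
      have := d_rep (X := X) (o := o) x
      omega
    · rcases x with a | a <;> rcases y with b | b
      · have h1 : X.d a b = 1 := h
        have h2 : X.d a v + X.d v b = X.d a b := hv
        have := d_inl (X := X) (o := o) (E := E) v a
        have := X.symm a v
        omega
      · obtain ⟨g, rfl, rfl⟩ := h
        have h1 := key g (Or.inl hv)
        have := (cone X o E).tri (Sum.inl v) (Sum.inr (g : G ⧸ E)) (Sum.inl (g • o))
        have := (cone X o E).symm (Sum.inr (g : G ⧸ E)) (Sum.inl (g • o))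
        omega
      · obtain ⟨g, rfl, rfl⟩ := h
        have h1 := key g (Or.inr hv)
        omega
      · exact h.elim
  · intro x y
    obtain ⟨γ, g0, g1, g2, g3⟩ := geo_seq X _ (rep o E x) (rep o E y) rfl
    refine ⟨X.d (rep o E x) (rep o E y) + 2, fun s => if s = 0 then x else
      if s = X.d (rep o E x) (rep o E y) + 2 then y else Sum.inl (γ (s - 1)), by simp, by simp,
      fun s _ => ?_, fun s hs => ?_⟩
    · beta_reduce
      split_ifs
      · exact Or.inl rfl
      · exact Or.inr (Or.inl rfl)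
      · exact Or.inr (Or.inr ⟨_, rfl, g2 _⟩)
    · beta_reduce
      by_cases h0 : s = 0
      · rw [if_pos h0, if_neg (by omega), if_neg (by omega), h0, Nat.sub_self, g0]
        exact d_rep x
      rw [if_neg h0, if_neg (by omega), if_neg (by omega)]
      by_cases h1 : s + 1 = X.d (rep o E x) (rep o E y) + 2
      · rw [if_pos h1, show s - 1 = X.d (rep o E x) (rep o E y) by omega, g1, GS.symm]
        exact d_rep y
      · rw [if_neg h1, show s + 1 - 1 = s - 1 + 1 by omega]
        exact (d_inl _ _).trans (g3 _ (by omega)).le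

theorem av_bound (hG : Geo G X o) (hq : QC X o E) (hm : AMal E) : ∃ C : ℕ, ∀ T, ∀ e ∈ E, ∀ e' ∈ E,
    (cone X o E).Av (Sum.inr ((1 : G) : G ⧸ E)) T (Sum.inl (e • o)) (Sum.inl (e' • o)) →
      X.d (e • o) (e' • o) ≤ T * C := by
  obtain ⟨pr, C, p0, p1, p2⟩ := exists_proj hG hq hm
  have p3 : ∀ g : G, (Sum.inr (g : G ⧸ E) : V ⊕ (G ⧸ E)) ≠ Sum.inr ((1 : G) : G ⧸ E) →
      X.d (pr (g • o)) (pr ((g : G ⧸ E).out • o)) ≤ C := by
    intro g hg
    refine p2 g _ (fun h => hg ?_) (out_mem g)
    congr 1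
    exact QuotientGroup.eq.mpr (by simpa using h)
  have key : ∀ T x z, (cone X o E).Av (Sum.inr ((1 : G) : G ⧸ E)) T x z →
      X.d (pr (rep o E x)) (pr (rep o E z)) ≤ T * C := by
    intro T x z h
    induction h with
    | refl n u _ => rw [X.d_self]; omega
    | step n u z w h1 h2 h3 ih =>
      have h4 : X.d (pr (rep o E u)) (pr (rep o E z)) ≤ C := by
        rcases le_one.mp h2 with rfl | h
        · rw [X.d_self]; omega
        rcases u with a | a <;> rcases z with b | b
        · exact p1 _ _ (le_of_eq h)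
        · obtain ⟨g, rfl, rfl⟩ := h
          exact p3 g h3.ne_left
        · obtain ⟨g, rfl, rfl⟩ := h
          rw [X.symm]
          exact p3 g h1
        · exact h.elim
      have := X.tri (pr (rep o E u)) (pr (rep o E z)) (pr (rep o E w))
      rw [Nat.succ_mul]
      omega
  refine ⟨C, fun T e he e' he' h => ?_⟩
  have := key T _ _ h
  rwa [show rep o E (Sum.inl (e • o)) = e • o from rfl, show rep o E (Sum.inl (e' • o)) = e' • o
    from rfl, p0 e he, p0 e' he'] at this

theorem thm_cone : S_cone := by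
  intro G V _ _ X o E hG hq hm
  have hi : Iso (cone X o E) G := cone_iso hG.iso
  obtain ⟨C, hC⟩ := av_bound hG hq hm
  obtain ⟨δ, hδ⟩ := cone_hyp hG hq
  have sm : ∀ g : G, g • (Sum.inr ((1 : G) : G ⧸ E) : V ⊕ (G ⧸ E)) = Sum.inr (g : G ⧸ E) := by
    intro g
    show (Sum.inr ((g * 1 : G) : G ⧸ E) : V ⊕ (G ⧸ E)) = _
    rw [mul_one]
  refine ⟨V ⊕ (G ⧸ E), inferInstance, cone X o E, Sum.inl o, Sum.inr ((1 : G) : G ⧸ E),
    ⟨hi, ⟨δ, hδ⟩, fun g => ?_, fun w => ?_, fun g h => ?_, ?_, fun g => ?_, fun R T => ?_,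
      fun T => ?_⟩⟩
  · rw [sm, Sum.inr.injEq, QuotientGroup.eq]
    simp
  · constructor
    · intro h
      have h1 := rel_of_one h
      rcases w with w | w
      · obtain ⟨g, rfl, h2⟩ := h1
        exact ⟨g, by simpa using QuotientGroup.eq.mp h2, rfl⟩
      · exact h1.elim
    · rintro ⟨e, he, rfl⟩
      have h1 : (cone X o E).d (Sum.inr ((1 : G) : G ⧸ E)) (Sum.inl (e • o)) ≤ 1 :=
        le_one.mpr (Or.inr ⟨e, rfl, QuotientGroup.eq.mpr (by simpa using he)⟩)
      have h2 : 0 < (cone X o E).d (Sum.inr ((1 : G) : G ⧸ E)) (Sum.inl (e • o)) :=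
        d_pos (by simp)
      exact le_antisymm h1 h2
  · rw [sm] at h
    simp at h
  · obtain ⟨K, hK⟩ := hG.cob
    refine ⟨K + 1, ?_⟩
    rintro (v | q)
    · obtain ⟨g, hg⟩ := hK v
      exact ⟨g, (d_inl v (g • o)).trans (by omega)⟩
    · exact ⟨q.out, (d_rep (X := X) (o := o) (Sum.inr q)).trans (by omega)⟩
  · have key : ∀ (q : G ⧸ E) n u v, X.d u v = n → (cone X o E).Dle (Sum.inr q) (Sum.inl u)
        (Sum.inl v) ((n + 1) * (16 * (6 * δ + 1) + 4)) := by
      intro q n
      induction n with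
      | zero =>
        intro u v h
        exact (hδ.four.dle (not_btw_of_le_one ((d_inl u v).trans (by omega)) (by simp)
          (by simp))).mono (by omega)
      | succ n ih =>
        intro u v h
        obtain ⟨z, h1, h2⟩ := X.step u v n h
        exact ((hδ.four.dle (not_btw_of_le_one ((d_inl u z).trans h1.le) (by simp)
          (by simp))).trans (by simp) (ih z v h2)).mono (le_of_eq (by ring))
    exact ⟨_, fun h => by rw [sm]; exact key _ _ o (g • o) rfl⟩
  · refine (hG.prop (R * (T * C + 1))).subset ?_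
    rintro g ⟨h1, h2⟩
    have key : ∀ n v, (cone X o E).Btw (Sum.inl o) (Sum.inl v) (Sum.inl (g • o)) →
        (cone X o E).d (Sum.inl v) (Sum.inl (g • o)) ≤ n → X.d v (g • o) ≤ n * (T * C + 1) := by
      intro n
      induction n with
      | zero =>
        intro v _ h
        rw [Sum.inl.inj ((cone X o E).eq_of_d _ _ (Nat.le_zero.mp h)), X.d_self]
        omega
      | succ n ih =>
        intro v hb h
        rw [Nat.succ_mul]
        by_cases h0 : (cone X o E).d (Sum.inl v) (Sum.inl (g • o)) ≤ n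
        · have := ih v hb h0
          omega
        obtain ⟨z, a1, a2⟩ := (cone X o E).step (Sum.inl v) (Sum.inl (g • o)) n (by omega)
        have t1 := (cone X o E).tri (Sum.inl o) (Sum.inl v) z
        have t2 := (cone X o E).tri (Sum.inl o) z (Sum.inl (g • o))
        have r1 := rel_of_one a1
        unfold GS.Btw at hb
        rcases z with z | q
        · have a3 : X.d v z = 1 := r1
          have := ih z (by unfold GS.Btw; omega) a2.le
          have := X.tri v z (g • o)
          omega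
        · obtain ⟨k, rfl, rfl⟩ := r1
          have a3 : 0 < (cone X o E).d (Sum.inr (k : G ⧸ E)) (Sum.inl (g • o)) := d_pos (by simp)
          obtain ⟨z', b1, b2⟩ := (cone X o E).step (Sum.inr (k : G ⧸ E)) (Sum.inl (g • o)) (n - 1)
            (by omega)
          have r2 := rel_of_one b1
          rcases z' with w | w
          swap
          · exact r2.elim
          obtain ⟨k', rfl, hk⟩ := r2
          have t3 := (cone X o E).tri (Sum.inl o) (Sum.inr (k : G ⧸ E)) (Sum.inl (k' • o))
          have t4 := (cone X o E).tri (Sum.inl o) (Sum.inl (k' • o)) (Sum.inl (g • o))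
          have s1 := (cone X o E).symm (Sum.inl o) (Sum.inr (k : G ⧸ E))
          have s2 := (cone X o E).symm (Sum.inl o) (Sum.inl (k • o))
          have s3 := (cone X o E).symm (Sum.inr (k : G ⧸ E)) (Sum.inl (k • o))
          have c1 := h2 k
          rw [sm] at c1
          have c2 := hi.av k⁻¹ (c1 (Sum.inl (k • o)) (Sum.inl (k' • o)) ⟨by omega, by omega⟩
            ⟨b1, show (cone X o E).d (Sum.inl (k' • o)) (Sum.inl (g • o)) + 1 =
              (cone X o E).d (Sum.inr (k : G ⧸ E)) (Sum.inl (g • o)) by omega⟩)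
          rw [← sm k, inv_smul_smul, Sum.smul_inl, Sum.smul_inl, ← mul_smul, ← mul_smul] at c2
          have c3 := hC T _ (by simp) _ (QuotientGroup.eq.mp hk) c2
          rw [mul_smul, mul_smul, hG.iso] at c3
          have c4 := ih (k' • o) (by unfold GS.Btw; omega) (by omega)
          have := X.tri (k • o) (k' • o) (g • o)
          omega
    exact key R o (btw_left _ _) h1
  · refine (hG.prop (T * C)).subset ?_
    rintro e ⟨he, h⟩
    have := hC T 1 E.one_mem e he (by rw [one_smul]; exact h)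
    rwa [one_smul] at this

end Pool.Agent.H21Z.Cone
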