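import Pool.Agent.H535Z.HG.St

set_option autoImplicit false

namespace Pool.Agent.H21Z.Cone

open Pool.Agent.H668Z.SC Pool.Agent.H535Z.HG GS

variable {G V : Type} [Group G] [MulAction G V] {X : GS V} {o : V} {E : Subgroup G}

theorem qc_coset (hi : Iso X G) {K : ℕ}
    (hK : ∀ e ∈ E, ∀ v, X.Btw o v (e • o) → ∃ e' ∈ E, X.d v (e' • o) ≤ K) {g g' : G}
    (h : g⁻¹ * g' ∈ E) {v : V} (hv : X.Btw (g • o) v (g' • o)) :
    ∃ g'', g⁻¹ * g'' ∈ E ∧ X.d v (g'' • o) ≤ K := by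
  have h1 : X.Btw o (g⁻¹ • v) ((g⁻¹ * g') • o) := by
    rw [← hi.btw g, smul_inv_smul, mul_smul, smul_inv_smul]; exact hv
  obtain ⟨e, he, h2⟩ := hK _ h _ h1
  refine ⟨g * e, by simpa using he, ?_⟩
  rw [hi.d_inv, ← mul_smul] at h2
  exact h2

theorem near_btw {h D : ℕ} (hf : X.Four h) {v a v' : V} (ha : X.d v a + X.d a v' ≤ X.d v v' + D) :
    ∃ m, X.Btw v m v' ∧ X.d a m ≤ D + h := by
  obtain ⟨m, h1, h2⟩ := exists_btw (X := X) v v' (min (X.d v a) (X.d v v')) (min_le_right _ _)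
  refine ⟨m, h2, ?_⟩
  unfold GS.Btw at h2
  have := hf a m v v'
  have := X.symm a v
  have := X.symm m v
  omega

theorem fin_pair (hm : AMal E) {h1 : G} (h2 : G) (hh : h1 ∉ E) :
    {e : G | e ∈ E ∧ h1⁻¹ * e * h2 ∈ E}.Finite := by
  by_cases hn : ∃ e0, e0 ∈ E ∧ h1⁻¹ * e0 * h2 ∈ E
  · obtain ⟨e0, a1, a2⟩ := hn
    refine ((hm h1 hh).image (· * e0)).subset ?_
    rintro e ⟨b1, b2⟩
    refine ⟨e * e0⁻¹, ⟨E.mul_mem b1 (E.inv_mem a1), ?_⟩, by simp⟩
    have := E.mul_mem b2 (E.inv_mem a2)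
    convert this using 1
    group
  · convert Set.finite_empty
    ext e
    simp only [Set.mem_ofPred_eq, Set.mem_empty_iff_false, iff_false]
    exact fun h => hn ⟨e, h⟩

theorem exists_proj (hG : Geo G X o) (hq : QC X o E) (hm : AMal E) :
    ∃ (pr : V → V) (C : ℕ), (∀ e ∈ E, pr (e • o) = e • o) ∧
      (∀ v v', X.d v v' ≤ 1 → X.d (pr v) (pr v') ≤ C) ∧
      ∀ g g' : G, g ∉ E → g⁻¹ * g' ∈ E → X.d (pr (g • o)) (pr (g' • o)) ≤ C := by
  classical
  obtain ⟨K, hK⟩ := hq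
  obtain ⟨δ, hδ⟩ := hG.hyp
  obtain ⟨h, hf⟩ : ∃ h, X.Four h := ⟨_, hδ.four⟩
  have hi := hG.iso
  have hex : ∀ v, ∃ e ∈ E, ∀ e' ∈ E, X.d v (e • o) ≤ X.d v (e' • o) := by
    intro v
    have : ∃ n, ∃ e ∈ E, X.d v (e • o) = n := ⟨_, 1, E.one_mem, rfl⟩
    obtain ⟨e, he, h1⟩ := Nat.find_spec this
    exact ⟨e, he, fun e' he' => h1 ▸ Nat.find_min' this ⟨e', he', rfl⟩⟩
  choose p hp hmin using hex
  have P0 : ∀ v, ∀ e ∈ E, X.d v (p v • o) + X.d (p v • o) (e • o) ≤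
      X.d v (e • o) + (2 * K + 2 * h + 1) := by
    intro v e he
    have h0 := hmin v e he
    by_cases hs : X.d (p v • o) (e • o) ≤ K + h + 1
    · omega
    obtain ⟨m, h1, h2⟩ := exists_btw (X := X) (p v • o) (e • o) (K + h + 1) (by omega)
    obtain ⟨g, h3, h4⟩ := qc_coset hi hK (E.mul_mem (E.inv_mem (hp v)) he) h2
    have h5 : g ∈ E := by simpa using E.mul_mem (hp v) h3
    have h6 := hmin v g h5
    have h7 := X.tri v m (g • o)
    have h8 := hf v m (p v • o) (e • o)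
    have h9 := X.symm m (p v • o)
    unfold GS.Btw at h2
    omega
  have P : ∀ v v', 2 * X.d (p v • o) (p v' • o) ≤ 4 * K + 5 * h + 2 ∨
      X.d v (p v • o) + X.d (p v • o) (p v' • o) + X.d (p v' • o) v' ≤
        X.d v v' + (4 * K + 5 * h + 2) := by
    intro v v'
    have h1 := P0 v _ (hp v')
    have h2 := P0 v' _ (hp v)
    have h3 := hf v (p v' • o) v' (p v • o)
    have := X.symm (p v • o) (p v' • o)
    have := X.symm (p v' • o) v'
    omega
  have hB := hG.prop (4 * K + 5 * h + 2 + h + K)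
  have hS : (⋃ h1 ∈ {g : G | X.d o (g • o) ≤ 4 * K + 5 * h + 2 + h + K ∧ g ∉ E},
      ⋃ h2 ∈ {g : G | X.d o (g • o) ≤ 4 * K + 5 * h + 2 + h + K},
      {e : G | e ∈ E ∧ h1⁻¹ * e * h2 ∈ E}).Finite :=
    (hB.subset fun g hg => hg.1).biUnion fun h1 a1 => hB.biUnion fun h2 _ => fin_pair hm h2 a1.2
  obtain ⟨Δ, hΔ⟩ := (hS.image fun e => X.d o (e • o)).bddAbove
  refine ⟨fun v => p v • o, 4 * K + 5 * h + 3 + Δ, fun e he => ?_, fun v v' hv => ?_,
    fun g g' hg hg' => ?_⟩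
  · have := hmin (e • o) e he
    rw [X.d_self] at this
    exact (X.eq_of_d _ _ (Nat.le_zero.mp this)).symm
  · have := P v v'
    beta_reduce
    omega
  · beta_reduce
    rcases P (g • o) (g' • o) with h1 | h1
    · omega
    have t1 := X.tri (p (g • o) • o) (p (g' • o) • o) (g' • o)
    have t2 := X.tri (g • o) (p (g • o) • o) (p (g' • o) • o)
    obtain ⟨m1, a1, a2⟩ := near_btw (D := 4 * K + 5 * h + 2) hf (v := g • o) (v' := g' • o)
      (a := p (g • o) • o) (by omega)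
    obtain ⟨m2, b1, b2⟩ := near_btw (D := 4 * K + 5 * h + 2) hf (v := g • o) (v' := g' • o)
      (a := p (g' • o) • o) (by omega)
    obtain ⟨g1, a3, a4⟩ := qc_coset hi hK hg' a1
    obtain ⟨g2, b3, b4⟩ := qc_coset hi hK hg' b1
    have t3 := X.tri (p (g • o) • o) m1 (g1 • o)
    have t4 := X.tri (p (g' • o) • o) m2 (g2 • o)
    have e1 : ∀ a b : G, X.d o ((a⁻¹ * b) • o) = X.d (a • o) (b • o) := by
      intro a b
      rw [← hi a, mul_smul, smul_inv_smul]
    have : X.d o (((p (g • o))⁻¹ * p (g' • o)) • o) ≤ Δ := by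
      refine hΔ ⟨_, ?_, rfl⟩
      simp only [Set.mem_iUnion, Set.mem_ofPred_eq, exists_prop]
      refine ⟨(p (g • o))⁻¹ * g1, ⟨by rw [e1]; omega, fun hc => hg ?_⟩, (p (g' • o))⁻¹ * g2,
        by rw [e1]; omega, E.mul_mem (E.inv_mem (hp _)) (hp _), ?_⟩
      · have := E.mul_mem (E.mul_mem (hp (g • o)) hc) (E.inv_mem a3)
        convert this using 1
        group
      · have := E.mul_mem (E.inv_mem a3) b3
        convert this using 1
        group
    rw [e1] at this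
    omega

theorem geo_seq (X : GS V) : ∀ n x y, X.d x y = n → ∃ γ : ℕ → V, γ 0 = x ∧ γ n = y ∧
    (∀ s, X.Btw x (γ s) y) ∧ ∀ s < n, X.d (γ s) (γ (s + 1)) = 1 := by
  intro n
  induction n with
  | zero =>
    intro x y h
    exact ⟨fun _ => x, rfl, X.eq_of_d _ _ h, fun _ => btw_left _ _, fun s hs => by omega⟩
  | succ n ih =>
    intro x y h
    obtain ⟨z, h1, h2⟩ := X.step x y n h
    obtain ⟨γ, g0, g1, g2, g3⟩ := ih z y h2
    refine ⟨fun s => Nat.casesOn s x γ, rfl, g1, fun s => ?_, fun s hs => ?_⟩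
    · cases s with
      | zero => exact btw_left _ _
      | succ s =>
        have := g2 s
        have := X.tri x z (γ s)
        have := X.tri x (γ s) y
        show X.Btw x (γ s) y
        unfold GS.Btw at *
        omega
    · cases s with
      | zero => show X.d x (γ 0) = 1; rw [g0, h1]
      | succ s => exact g3 s (by omega)

end Pool.Agent.H21Z.Cone
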